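import Mathlib
import Pool.Agent.H.MP_be8317_an.Main

namespace Pool.Agent.Results.MP_be8317_an.Alzer

open Pool.Agent.H.MP_be8317_an

variable {A : Type*} [CStarAlgebra A] [PartialOrder A] [StarOrderedRing A]

noncomputable def Phi (m : ℕ) (X Y : A) : A :=
  Y ^ (1 / 2 : ℝ) * (Y ^ (-(1 / 2) : ℝ) * X * Y ^ (-(1 / 2) : ℝ)) ^ (1 / m : ℝ) * Y ^ (1 / 2 : ℝ)

noncomputable def geo : A → List A → A
  | X, [] => X
  | X, Y :: L => Phi (L.length + 2) X (geo Y L)

noncomputable def ari (X : A) (L : List A) : A := (1 / (L.length + 1) : ℝ) • (X + L.sum)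

theorem pos (L : List A) : ∀ X : A, (∀ Z ∈ X :: L, IsStrictlyPositive Z) →
    IsStrictlyPositive (geo X L) := by
  induction L with
  | nil => exact fun X h => h X (by simp)
  | cons Y L ih =>
    intro X h
    have hY := ih Y fun Z hZ => h Z (List.mem_cons_of_mem _ hZ)
    have c : ∀ {Z W : A}, IsStrictlyPositive Z → IsStrictlyPositive W →
        IsStrictlyPositive (W * Z * W) := fun {Z W} a b =>
      ⟨by simpa only [b.nonneg.star_eq] using star_left_conjugate_nonneg a.nonneg W,
        (b.isUnit.mul a.isUnit).mul b.isUnit⟩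
    exact c (.rpow _ _ (c (h X (by simp)) (.rpow _ _ hY))) (.rpow _ _ hY)

theorem result (X : A) (L : List A)
    (h : ∀ Z ∈ X :: L, IsStrictlyPositive Z ∧ Z ≤ (1 / 2 : ℝ) • 1) :
    ari (1 - X) (L.map (1 - ·)) - geo (1 - X) (L.map (1 - ·)) ≤ ari X L - geo X L := by
  have h2 : ∀ Z : A, Z ≤ (1 / 2 : ℝ) • 1 → 0 ≤ 1 - (2 : ℝ) • Z := fun Z h => by
    simpa [smul_smul] using smul_le_smul_of_nonneg_left h (zero_le_two (α := ℝ))
  have h3 : ∀ Z : A, IsStrictlyPositive Z ∧ Z ≤ (1 / 2 : ℝ) • 1 → IsStrictlyPositive (1 - Z) :=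
    fun Z h => by
      convert h.1.add_nonneg (h2 Z h.2) using 1
      rw [two_smul]; abel
  have key : P (geo (1 - X) (L.map (1 - ·))) (geo X L) (ari (1 - X) (L.map (1 - ·)) - ari X L) := by
    induction L generalizing X with
    | nil =>
      convert base X (h2 X (h X (by simp)).2) using 1
      · rfl
      · rfl
      simp [ari, two_smul, sub_sub]
    | cons Y L ih =>
      have h' : ∀ Z ∈ Y :: L, IsStrictlyPositive Z ∧ Z ≤ (1 / 2 : ℝ) • 1 :=
        fun Z hZ => h Z (List.mem_cons_of_mem _ hZ)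
      have hX := h X (by simp)
      have l : (0 : ℝ) ≤ L.length := Nat.cast_nonneg _
      have := main (p := 1 / (L.length + 2 : ℕ)) ⟨by positivity, by
        rw [div_lt_one (by positivity)]; push_cast; linarith⟩ (h3 X hX).nonneg
        (pos (L.map (1 - ·)) (1 - Y) fun Z hZ => by
          obtain ⟨W, a, rfl⟩ := List.mem_map.1 (show Z ∈ (Y :: L).map (1 - ·) from hZ)
          exact h3 W (h' W a)) hX.1.nonneg (pos L Y fun Z hZ => (h' Z hZ).1)
        (base X (h2 X hX.2)) (ih Y h')
      convert this using 1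
      · simp only [List.map_cons, geo, List.length_map]; rfl
      · rfl
      · simp only [ari, List.map_cons, List.length_map, List.length_cons, List.sum_cons]
        push_cast
        match_scalars <;> field_simp <;> ring
  have := key 1 0
  simp only [star_one, star_zero, add_zero, sub_zero, mul_one, one_mul, mul_zero, zero_add] at this
  rw [sub_le_sub_iff] at this ⊢
  rwa [add_comm (ari X L)]

end Pool.Agent.Results.MP_be8317_an.Alzer
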